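import Pool.Agent.H948.HS.Stm

/-!
# Nice pieces have probability at least `c3 λ ^ n` infinitely often
-/

set_option autoImplicit false

namespace Pool.Agent.H746.HS

open MeasureTheory ProbabilityTheory Set Filter Metric
open scoped ENNReal NNReal Topology RealInnerProductSpace
open Pool.Agent.H948.HS

variable {m : ℕ}

/-- the exceptional event of `S_STR` -/
def Ev (m : ℕ) (c v ζ b ε : ℝ) (l k : ℕ) : Set (Om m) :=
  {u | u ∈ High m c ((v - ε) * ((k * l : ℕ) : ℝ)) (k * l) ∧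
        b * k < (({i : ℕ | i < k ∧ bad v ζ l u i}.ncard : ℕ) : ℝ)}

open Classical in
lemma ncard_eq (v ζ : ℝ) (l k : ℕ) (u : Om m) :
    (({i : ℕ | i < k ∧ bad v ζ l u i}.ncard : ℕ) : ℝ) =
      ∑ i ∈ Finset.range k, if bad v ζ l u i then (1 : ℝ) else 0 := by
  rw [Finset.sum_boole]
  congr 1
  have h : {i : ℕ | i < k ∧ bad v ζ l u i} =
      (((Finset.range k).filter fun i => bad v ζ l u i : Finset ℕ) : Set ℕ) := by
    ext i
    simp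
  rw [h, Set.ncard_coe_finset]

lemma meas_Ev (c v ζ b ε : ℝ) (l k : ℕ) : MeasurableSet (Ev m c v ζ b ε l k) := by
  classical
  have h : Ev m c v ζ b ε l k = High m c ((v - ε) * ((k * l : ℕ) : ℝ)) (k * l) ∩
      {u : Om m | b * k < ∑ i ∈ Finset.range k, if bad v ζ l u i then (1 : ℝ) else 0} := by
    ext u
    rw [mem_inter_iff]
    refine and_congr_right fun _ => ?_
    rw [ncard_eq]
    rfl
  rw [h]
  exact (meas_High _ _ _).inter (measurableSet_lt measurable_const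
    (Finset.measurable_sum _ fun i _ =>
      Measurable.ite (meas_bad v ζ l i) measurable_const measurable_const))

lemma loc_Ev (c v ζ b ε : ℝ) (l k : ℕ) : Loc (k * l) (Ev m c v ζ b ε l k) := by
  refine loc_and (loc_High _ _ _) ?_
  intro u w h hb
  have e : {i : ℕ | i < k ∧ bad v ζ l w i} = {i : ℕ | i < k ∧ bad v ζ l u i} := by
    ext i
    simp only [mem_ofPred_eq]
    refine and_congr_right fun hi => ?_
    unfold bad
    rw [S_congr h (Nat.mul_le_mul_right l (Nat.succ_le_of_lt hi))]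
  rw [e]
  exact hb

lemma pr_shift (hB : S_BLOCK) {n : ℕ} {A : Set (Om m)} (hA : MeasurableSet A) (hl : Loc n A)
    (a : ℕ) : (Pm m).real {u | shift a u ∈ A} = (Pm m).real A := by
  have h := hB m 1 (fun _ => a) (fun _ => n) (fun _ => A) (fun _ _ => ⟨hA, hl⟩)
    (fun i hi => by omega)
  simpa using h

/-- the union of the pattern events -/
def Pats (m : ℕ) (c v C2 ζ : ℝ) (l M K τ : ℕ) : Set (Om m) :=
  {u | ∃ s < M, ∃ (C G : Finset ℕ) (α β : ℕ → ℕ), C.Nonempty ∧ K ≤ 2 * G.card ∧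
      (∀ k ∈ C, k < K) ∧ (∀ k ∈ G, k ∈ C ∧ k + 1 ∈ C) ∧ (∀ k, α k ≤ τ ∧ β k ≤ τ) ∧
      (∀ k ∈ C, α k ≤ (k * M + s) * l ∧ (k * M + s) * l + β k ≤ K * (M * l)) ∧
      u ∈ Pat m c v C2 ζ (K * (M * l)) (fun k => (k * M + s) * l) C G α β}

lemma incl (hT : S_TYP) (hP : S_PAT) {c v ζ ε ε1 ε2 : ℝ} {l M K τ : ℕ} (hc : 0 < c) (hv : 0 < v)
    (hv1 : v ≤ 1) (hζ : 0 < ζ) (hl : 1 ≤ l) (hM : 1 ≤ M) (hτ : 2 * τ < M * l)
    (hτ2 : 4 * (l : ℝ) ≤ v * τ)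
    (hζN : ζ / 4 * ((M * l : ℕ) : ℝ) + 4 * τ ≤ ζ * (((M * l : ℕ) : ℝ) - 2 * τ)) (hK : 64 ≤ K)
    (he1 : ε ≤ ε1) (he2 : ε ≤ ε2 / 4) (hK2 : 1 + ε2 ≤ 3 / 4 * ε2 * K) {u : Om m}
    (hu : u ∈ High m c ((v - ε) * ((K * (M * l) : ℕ) : ℝ)) (K * (M * l))) :
    u ∈ Ev m c v (v / 4) (v / 256) ε1 l (K * M) ∪
      ((⋃ s ∈ Finset.range M, {u | shift (s * l) u ∈ Ev m c v (ζ / 4) (1 / 16) ε2 (M * l) (K - 1)}) ∪
        Pats m c v (4 * l + τ) ζ l M K τ) := by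
  by_cases h1 : u ∈ Ev m c v (v / 4) (v / 256) ε1 l (K * M)
  · exact Or.inl h1
  by_cases h2 : ∃ s < M, shift (s * l) u ∈ Ev m c v (ζ / 4) (1 / 16) ε2 (M * l) (K - 1)
  · obtain ⟨s, hs, h2⟩ := h2
    exact Or.inr (Or.inl (mem_iUnion₂.2 ⟨s, Finset.mem_range.2 hs, h2⟩))
  refine Or.inr (Or.inr ?_)
  push Not at h2
  obtain ⟨hsaw, hht⟩ := hu
  have e1 : (({i : ℕ | i < K * M ∧ bad v (v / 4) l u i}.ncard : ℕ) : ℝ) ≤
      v / 256 * ((K * M : ℕ) : ℝ) := by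
    by_contra hlt
    push Not at hlt
    refine h1 ⟨⟨?_, ?_⟩, hlt⟩
    · rw [mul_assoc]
      exact hsaw
    · rw [mul_assoc]
      refine le_trans ?_ hht
      exact mul_le_mul_of_nonneg_right (by linarith) (Nat.cast_nonneg _)
  obtain ⟨K', rfl⟩ : ∃ K', K = K' + 1 := ⟨K - 1, by omega⟩
  rw [Nat.add_sub_cancel] at h2
  have e2 : ∀ s < M, (({i : ℕ | i < K' + 1 - 1 ∧ bad v (ζ / 4) (M * l) (shift (s * l) u) i}.ncard :
      ℕ) : ℝ) ≤ 1 / 16 * ((K' + 1 - 1 : ℕ) : ℝ) := by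
    intro s hs
    rw [Nat.add_sub_cancel]
    by_contra hlt
    push Not at hlt
    have hsl : s * l ≤ M * l := Nat.mul_le_mul_right l hs.le
    have hKN : (K' + 1) * (M * l) = K' * (M * l) + M * l := by ring
    refine h2 s hs ⟨⟨saw_shift hsaw (by omega), ?_⟩, hlt⟩
    rw [ht_shift, add_zero]
    have a1 := ht_add u (Nat.zero_le (s * l)) (by omega : s * l ≤ s * l + K' * (M * l))
    have a2 := ht_add u (Nat.zero_le (s * l + K' * (M * l)))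
      (by omega : s * l + K' * (M * l) ≤ (K' + 1) * (M * l))
    have b1 := (le_abs_self _).trans (abs_ht_le u 0 (s * l))
    have b2 := (le_abs_self _).trans (abs_ht_le u (s * l + K' * (M * l)) ((K' + 1) * (M * l)))
    have b3 : (((K' + 1) * (M * l) - (s * l + K' * (M * l)) : ℕ) : ℝ) =
        ((M * l : ℕ) : ℝ) - ((s * l : ℕ) : ℝ) := by
      rw [show (K' + 1) * (M * l) - (s * l + K' * (M * l)) = M * l - s * l by omega,
        Nat.cast_sub hsl]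
    rw [b3] at b2
    rw [Nat.sub_zero] at b1
    have b4 : (((K' + 1) * (M * l) : ℕ) : ℝ) = ((K' : ℝ) + 1) * ((M * l : ℕ) : ℝ) := by
      push_cast
      ring
    have b5 : ((K' * (M * l) : ℕ) : ℝ) = (K' : ℝ) * ((M * l : ℕ) : ℝ) := by push_cast; ring
    rw [b4] at hht
    rw [b5]
    have hN : (0 : ℝ) ≤ ((M * l : ℕ) : ℝ) := Nat.cast_nonneg _
    have hK0 : (0 : ℝ) ≤ (K' : ℝ) := Nat.cast_nonneg _
    push_cast at hK2
    have b6 : (v - ε2) * (K' : ℝ) ≤ (v - ε) * ((K' : ℝ) + 1) - 1 := by nlinarith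
    have b7 := mul_le_mul_of_nonneg_right b6 hN
    nlinarith
  obtain ⟨s, hs, C, G, hC, hKG, hCone, hG⟩ := hT m v ζ l M (K' + 1) u hv hv1 hζ hl hM hK e1 e2
  obtain ⟨α, β, h3, h4, h5⟩ := hP m c v ζ l M (K' + 1) s τ u C G hc hv hv1 hζ hl hs hτ hτ2 hζN hsaw
    hCone hG
  exact ⟨s, hs, C, G, α, β, hC, hKG, fun k hk => (hCone k hk).1,
    fun k hk => ⟨(hG k hk).1, (hG k hk).2.1⟩, h3, h4, h5⟩

/-- the union bound -/
lemma bound (hB : S_BLOCK) (hT : S_TYP) (hP : S_PAT) {c v ζ ε ε1 ε2 : ℝ} {l M K τ : ℕ} (hc : 0 < c)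
    (hv : 0 < v)
    (hv1 : v ≤ 1) (hζ : 0 < ζ) (hl : 1 ≤ l) (hM : 1 ≤ M) (hτ : 2 * τ < M * l)
    (hτ2 : 4 * (l : ℝ) ≤ v * τ)
    (hζN : ζ / 4 * ((M * l : ℕ) : ℝ) + 4 * τ ≤ ζ * (((M * l : ℕ) : ℝ) - 2 * τ)) (hK : 64 ≤ K)
    (he1 : ε ≤ ε1) (he2 : ε ≤ ε2 / 4) (hK2 : 1 + ε2 ≤ 3 / 4 * ε2 * K) :
    (Pm m).real (High m c ((v - ε) * ((K * (M * l) : ℕ) : ℝ)) (K * (M * l))) ≤
      (Pm m).real (Ev m c v (v / 4) (v / 256) ε1 l (K * M)) +
      (M * (Pm m).real (Ev m c v (ζ / 4) (1 / 16) ε2 (M * l) (K - 1)) +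
        (Pm m).real (Pats m c v (4 * l + τ) ζ l M K τ)) := by
  refine (measureReal_mono (fun u hu => incl hT hP hc hv hv1 hζ hl hM hτ hτ2 hζN hK he1 he2 hK2 hu)
    (measure_ne_top _ _)).trans ?_
  refine (measureReal_union_le _ _).trans (add_le_add le_rfl ?_)
  refine (measureReal_union_le _ _).trans (add_le_add ?_ le_rfl)
  refine (measureReal_biUnion_finset_le _ _).trans ?_
  rw [Finset.sum_congr rfl fun s _ => pr_shift hB (meas_Ev c v (ζ / 4) (1 / 16) ε2 (M * l) (K - 1))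
    (loc_Ev c v (ζ / 4) (1 / 16) ε2 (M * l) (K - 1)) (s * l)]
  rw [Finset.sum_const, Finset.card_range, nsmul_eq_mul]

/-- the numerical part -/
lemma numeric {r a b g D : ℝ} {M : ℕ} (hr : 0 < r) (ha0 : 0 ≤ a) (ha : a < 1) (hb0 : 0 ≤ b)
    (hb : b < 1) (hg0 : 0 ≤ g) (hg : g ≤ r / 2) : ∃ K0 : ℕ, ∀ K ≥ K0, 1 ≤ K →
    (a * r) ^ K + (M * (b * r) ^ (K - 1) + M * D ^ 2 * g ^ K) < r ^ K := by
  have t1 : Tendsto (fun K : ℕ => a ^ K) atTop (𝓝 0) := tendsto_pow_atTop_nhds_zero_of_lt_one ha0 ha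
  have t2 : Tendsto (fun K : ℕ => M / r * b ^ (K - 1)) atTop (𝓝 0) := by
    have h := ((tendsto_pow_atTop_nhds_zero_of_lt_one hb0 hb).comp
      (tendsto_sub_atTop_nat 1)).const_mul (M / r)
    simpa using h
  have t3 : Tendsto (fun K : ℕ => M * D ^ 2 * (1 / 2 : ℝ) ^ K) atTop (𝓝 0) := by
    have h := (tendsto_pow_atTop_nhds_zero_of_lt_one (by norm_num : (0 : ℝ) ≤ 1 / 2)
      (by norm_num)).const_mul (M * D ^ 2)
    simpa using h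
  have t := (t1.add (t2.add t3))
  rw [add_zero, add_zero] at t
  obtain ⟨K0, hK0⟩ := eventually_atTop.1 (t.eventually_lt_const one_pos)
  refine ⟨K0, fun K hK hK1 => ?_⟩
  have h := hK0 K hK
  have hrK : 0 < r ^ K := pow_pos hr K
  have h1 := mul_lt_mul_of_pos_right h hrK
  rw [one_mul] at h1
  refine lt_of_le_of_lt ?_ h1
  have e1 : (a * r) ^ K = a ^ K * r ^ K := mul_pow _ _ _
  have e2 : (b * r) ^ (K - 1) = 1 / r * b ^ (K - 1) * r ^ K := by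
    obtain ⟨j, rfl⟩ : ∃ j, K = j + 1 := ⟨K - 1, by omega⟩
    rw [Nat.add_sub_cancel, mul_pow, pow_succ r j]
    field_simp
  have e3 : g ^ K ≤ (1 / 2 : ℝ) ^ K * r ^ K := by
    rw [← mul_pow]
    exact pow_le_pow_left₀ hg0 (by linarith) K
  have e4 : M * D ^ 2 * g ^ K ≤ M * D ^ 2 * ((1 / 2 : ℝ) ^ K * r ^ K) :=
    mul_le_mul_of_nonneg_left e3 (by positivity)
  rw [e1, e2]
  have e5 : (a ^ K + (M / r * b ^ (K - 1) + M * D ^ 2 * (1 / 2 : ℝ) ^ K)) * r ^ K =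
      a ^ K * r ^ K + (M * (1 / r * b ^ (K - 1) * r ^ K) +
        M * D ^ 2 * ((1 / 2 : ℝ) ^ K * r ^ K)) := by ring
  rw [e5]
  linarith

/-- **[LOW]** -/
theorem s_low (hB : S_BLOCK) (hM : S_LAM) (hb : S_BRL) (hs : S_STR) (ht : S_TYP) (hp : S_PAT)
    (hu : S_UNI) : S_LOW := by
  intro m c v hc hc1 hball
  obtain ⟨hlam, hlam1, -, -, -, hZub⟩ := hM m c hc hc1
  obtain ⟨hpc, hpc1, -, -, hBlam, hWb⟩ := hb m c hc hc1
  obtain ⟨hv, hv1, -, hlow⟩ := id hball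
  obtain ⟨A, hA⟩ : ∃ A : ℝ, A = 1 / pc m c ^ 2 := ⟨_, rfl⟩
  have hpc2 : pc m c ^ 2 ≤ 1 := pow_le_one₀ hpc.le hpc1
  have hA1 : 1 ≤ A := by
    rw [hA, le_div_iff₀ (by positivity)]
    linarith
  have hApos : 0 < A := by linarith
  have hAW : ∀ n, (Pm m).real (Wb m c (e0 m) n) ≤ A * lam m c ^ n := by
    intro n
    have h1 := hWb (e0 m) n norm_e0
    have h2 := hBlam (n + 2)
    have h3 : lam m c ^ (n + 2) ≤ lam m c ^ n := pow_le_pow_of_le_one hlam.le hlam1 (by omega)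
    rw [hA, one_div, ← div_eq_inv_mul, le_div_iff₀ (by positivity)]
    linarith
  obtain ⟨l, hl, hstr1⟩ := hs m c v (v / 4) (v / 256) hc hc1 hball (by positivity) (by positivity)
  obtain ⟨ε1, θ1, hε1, hθ1, hθ1', k1, hk1⟩ := hstr1 l le_rfl
  obtain ⟨τ, hτ⟩ : ∃ τ : ℕ, τ = ⌈4 * (l : ℝ) / v⌉₊ := ⟨_, rfl⟩
  have hτ2 : 4 * (l : ℝ) ≤ v * τ := by
    have h := Nat.le_ceil (4 * (l : ℝ) / v)
    rw [← hτ, div_le_iff₀ hv] at h
    linarith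
  obtain ⟨W, hW⟩ : ∃ W : ℝ, W = 8 * Real.exp 1 ^ 2 * ((τ : ℝ) + 1) ^ 2 * A := ⟨_, rfl⟩
  have hW1 : 1 ≤ W := by
    have h1 : 1 ≤ Real.exp 1 ^ 2 := one_le_pow₀ (Real.one_le_exp zero_le_one)
    have h2 : 1 ≤ ((τ : ℝ) + 1) ^ 2 := one_le_pow₀ (by
      have : (0 : ℝ) ≤ τ := Nat.cast_nonneg _
      linarith)
    rw [hW]
    exact one_le_mul_of_one_le_of_one_le (one_le_mul_of_one_le_of_one_le (by linarith) h2) hA1
  have hWpos : 0 < W := by linarith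
  obtain ⟨y, hy⟩ : ∃ y : ℝ, y = lam m c ^ (2 * τ) / W := ⟨_, rfl⟩
  have hy0 : 0 < y := by
    rw [hy]
    positivity
  have hy1 : y ≤ 1 := by
    rw [hy, div_le_one hWpos]
    exact (pow_le_one₀ hlam.le hlam1).trans hW1
  have hl0 : (0 : ℝ) < l := by exact_mod_cast hl
  refine ⟨4 * l + τ, y ^ 2, by positivity, by positivity, fun ζ n1 hζ => ?_⟩
  by_contra hcon
  push Not at hcon
  obtain ⟨L2, hL2, hstr2⟩ := hs m c v (ζ / 4) (1 / 16) hc hc1 hball (by positivity) (by norm_num)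
  obtain ⟨M, hMdef⟩ : ∃ M : ℕ, M = L2 + n1 + 2 * τ + 1 + ⌈16 * (τ : ℝ) / (3 * ζ) + 8 * τ / 3⌉₊ :=
    ⟨_, rfl⟩
  have hM1 : 1 ≤ M := by omega
  have hMl : M ≤ M * l := Nat.le_mul_of_pos_right M (by omega)
  have hζN : ζ / 4 * ((M * l : ℕ) : ℝ) + 4 * τ ≤ ζ * (((M * l : ℕ) : ℝ) - 2 * τ) := by
    have h1 : 16 * (τ : ℝ) / (3 * ζ) + 8 * τ / 3 ≤ ((M * l : ℕ) : ℝ) := by
      refine (Nat.le_ceil _).trans ?_
      exact_mod_cast (by omega : ⌈16 * (τ : ℝ) / (3 * ζ) + 8 * τ / 3⌉₊ ≤ M * l)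
    have h2 := mul_le_mul_of_nonneg_left h1 (by positivity : 0 ≤ 3 * ζ / 4)
    have h3 : 3 * ζ / 4 * (16 * (τ : ℝ) / (3 * ζ) + 8 * τ / 3) = 4 * τ + 2 * τ * ζ := by
      field_simp
      ring
    rw [h3] at h2
    linarith
  obtain ⟨ε2, θ2, hε2, hθ2, hθ2', k2, hk2⟩ := hstr2 (M * l) (by omega)
  have hN0 : M * l ≠ 0 := by omega
  have hNpos : (0 : ℝ) < ((M * l : ℕ) : ℝ) := by exact_mod_cast Nat.pos_of_ne_zero hN0
  obtain ⟨κ, hκ⟩ : ∃ κ : ℝ, κ = Real.exp (-1 / ((M * l : ℕ) : ℝ)) := ⟨_, rfl⟩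
  have hκ0 : 0 < κ := by rw [hκ]; exact Real.exp_pos _
  have hκ1 : κ < 1 := by
    rw [hκ, Real.exp_lt_one_iff]
    exact div_neg_of_neg_of_pos (by norm_num) hNpos
  have hκN : κ ^ (M * l) = (Real.exp 1)⁻¹ := by
    rw [hκ, ← Real.exp_nat_mul, mul_div_cancel₀ _ hNpos.ne', Real.exp_neg]
  obtain ⟨D, hD1, hD⟩ := hZub (lam m c / κ) (by
    rw [lt_div_iff₀ hκ0]
    nlinarith)
  obtain ⟨θ, hθ⟩ : ∃ θ : ℝ, θ = (1 + max (max θ1 θ2) κ) / 2 := ⟨_, rfl⟩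
  have hmax : max (max θ1 θ2) κ < 1 := max_lt (max_lt hθ1' hθ2') hκ1
  have hθlt : θ < 1 := by linarith
  have hθmax : max (max θ1 θ2) κ < θ := by linarith
  have hθ1θ : θ1 < θ := lt_of_le_of_lt ((le_max_left _ _).trans (le_max_left _ _)) hθmax
  have hθ2θ : θ2 < θ := lt_of_le_of_lt ((le_max_right _ _).trans (le_max_left _ _)) hθmax
  have hκθ : κ < θ := lt_of_le_of_lt (le_max_right _ _) hθmax
  have hθ0 : 0 < θ := hθ1.trans hθ1θ
  obtain ⟨ε, hε⟩ : ∃ ε : ℝ, ε = min ε1 (ε2 / 4) := ⟨_, rfl⟩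
  have hε0 : 0 < ε := by rw [hε]; exact lt_min hε1 (by positivity)
  have he1 : ε ≤ ε1 := by rw [hε]; exact min_le_left _ _
  have he2 : ε ≤ ε2 / 4 := by rw [hε]; exact min_le_right _ _
  obtain ⟨r, hr⟩ : ∃ r : ℝ, r = (θ * lam m c) ^ (M * l) := ⟨_, rfl⟩
  have hr0 : 0 < r := by rw [hr]; positivity
  obtain ⟨a, ha⟩ : ∃ a : ℝ, a = (θ1 * lam m c) ^ (M * l) / r := ⟨_, rfl⟩
  obtain ⟨b, hb'⟩ : ∃ b : ℝ, b = (θ2 * lam m c) ^ (M * l) / r := ⟨_, rfl⟩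
  have ha0 : 0 ≤ a := by rw [ha]; positivity
  have hb0 : 0 ≤ b := by rw [hb']; positivity
  have ha1 : a < 1 := by
    rw [ha, div_lt_one hr0, hr]
    exact pow_lt_pow_left₀ (mul_lt_mul_of_pos_right hθ1θ hlam) (by positivity) hN0
  have hb1 : b < 1 := by
    rw [hb', div_lt_one hr0, hr]
    exact pow_lt_pow_left₀ (mul_lt_mul_of_pos_right hθ2θ hlam) (by positivity) hN0
  obtain ⟨g, hg⟩ : ∃ g : ℝ, g = 4 * ((τ : ℝ) + 1) ^ 2 * A * y *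
      (lam m c ^ (M * l) / (lam m c ^ (2 * τ) * κ ^ (M * l))) := ⟨_, rfl⟩
  have hg0 : 0 ≤ g := by rw [hg]; positivity
  have hgr : g ≤ r / 2 := by
    have h1 : g = lam m c ^ (M * l) / (2 * Real.exp 1) := by
      rw [hg, hκN, hy, hW]
      have := Real.exp_pos 1
      field_simp
      ring
    have h2 : lam m c ^ (M * l) / Real.exp 1 ≤ r := by
      rw [hr, mul_pow, div_eq_mul_inv, ← hκN, mul_comm]
      exact mul_le_mul_of_nonneg_right (pow_le_pow_left₀ hκ0.le hκθ.le _) (by positivity)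
    rw [h1]
    have h3 : lam m c ^ (M * l) / (2 * Real.exp 1) = lam m c ^ (M * l) / Real.exp 1 / 2 := by
      rw [div_div, mul_comm (Real.exp 1) 2]
    rw [h3]
    linarith
  obtain ⟨K0, hK0⟩ := numeric (D := D) (M := M) hr0 ha0 ha1 hb0 hb1 hg0 hgr
  obtain ⟨K, hK, hKlow⟩ := hlow ε θ hε0 hθ0 hθlt (M * l) (Nat.pos_of_ne_zero hN0)
    (K0 + 64 + k1 + k2 + ⌈(1 + ε2) / (3 / 4 * ε2)⌉₊)
  have hK2 : 1 + ε2 ≤ 3 / 4 * ε2 * K := by
    have h1 : (1 + ε2) / (3 / 4 * ε2) ≤ (K : ℝ) :=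
      (Nat.le_ceil _).trans (by exact_mod_cast (by omega : ⌈(1 + ε2) / (3 / 4 * ε2)⌉₊ ≤ K))
    rw [div_le_iff₀ (by positivity)] at h1
    linarith
  have hbd := bound (m := m) hB ht hp hc hv hv1 hζ hl hM1 (by omega : 2 * τ < M * l) hτ2 hζN
    (by omega : 64 ≤ K) he1 he2 hK2
  have p1 : (Pm m).real (Ev m c v (v / 4) (v / 256) ε1 l (K * M)) ≤ (a * r) ^ K := by
    have hKM : k1 ≤ K * M := (by omega : k1 ≤ K).trans (Nat.le_mul_of_pos_right K hM1)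
    refine (hk1 (K * M) hKM).trans (le_of_eq ?_)
    rw [ha, div_mul_cancel₀ _ hr0.ne', ← pow_mul]
    congr 1
    ring
  have p2 : (Pm m).real (Ev m c v (ζ / 4) (1 / 16) ε2 (M * l) (K - 1)) ≤ (b * r) ^ (K - 1) := by
    refine (hk2 (K - 1) (by omega)).trans (le_of_eq ?_)
    rw [hb', div_mul_cancel₀ _ hr0.ne', ← pow_mul]
    congr 1
    ring
  have p3 : (Pm m).real (Pats m c v (4 * l + τ) ζ l M K τ) ≤ M * D ^ 2 * g ^ K := by
    refine (hu m c v (4 * l + τ) ζ l M K τ A y D κ hc hc1 hl hM1 (by omega) hA1 hAW hy0 hy1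
      (fun n _ hn => (hcon n (by omega)).le) hD1 hκ0 hκ1.le hD).trans (le_of_eq ?_)
    rw [hg]
    simp only [mul_pow, div_pow, ← pow_mul]
    rw [mul_comm K (M * l), mul_assoc 2 τ K]
    ring
  have hfin := hK0 K (by omega) (by omega)
  have p4 : r ^ K ≤ (Pm m).real (High m c ((v - ε) * ((K * (M * l) : ℕ) : ℝ)) (K * (M * l))) := by
    refine le_trans (le_of_eq ?_) hKlow
    rw [hr, ← pow_mul]
    congr 1
    ring
  have p5 := mul_le_mul_of_nonneg_left p2 (Nat.cast_nonneg M : (0 : ℝ) ≤ M)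
  linarith

end Pool.Agent.H746.HS
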